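import Mathlib
import Pool.Agent.H8VT.Main
import Pool.Graph.R_seed8.Results.MP_81f94f_an.FinitelyManyFlatSteps

set_option autoImplicit false

/-!
# MP_81f94f_an: the submultiplicativity of the norms of powers is strict with finitely many exceptions

Let `A` be `M(0,1)` or `L^1[0,1]` and let `a ∈ A` have no power equal to `0`.  Then
`‖a^{n_1 + ... + n_k}‖ < ‖a^{n_1}‖ ⋯ ‖a^{n_k}‖` for all lists `n_1, ..., n_k` of at least two
positive integers, with finitely many exceptions.  The pool library has the case `k = 2`, `n_1 = n_2`.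
-/

namespace Pool.Agent.Results.MP_81f94f_an.FinitelyManyEqualities

open MeasureTheory Set Filter Topology
open scoped ENNReal NNReal
open Pool.Agent.Results.MP_81f94f_an.FlatRunsNotNormSequence
open Pool.Agent.Results.MP_81f94f_an.FinitelyManyFlatSteps

/-- The lists with equality: `2 ≤ k`, all `n_i ≥ 1` and `ν (n_1 + ⋯ + n_k) = ν n_1 ⋯ ν n_k`. -/
def EqualityLists {R : Type} [CommMonoid R] (ν : ℕ → R) : Set (List ℕ) :=
  {l | 2 ≤ l.length ∧ (∀ n ∈ l, 1 ≤ n) ∧ ν l.sum = (l.map ν).prod}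

theorem sum_pos {l : List ℕ} (h : ∀ n ∈ l, 1 ≤ n) (hl : l ≠ []) : 1 ≤ l.sum := by
  obtain ⟨x, t, rfl⟩ := List.exists_cons_of_ne_nil hl
  have := h x (by simp)
  rw [List.sum_cons]
  omega

theorem prod_ge {ν : ℕ → ℝ≥0∞} (hν : ∀ m n, 1 ≤ m → 1 ≤ n → ν (m + n) ≤ ν m * ν n) {l : List ℕ}
    (h : ∀ n ∈ l, 1 ≤ n) (hl : l ≠ []) : ν l.sum ≤ (l.map ν).prod := by
  induction l with
  | nil => exact absurd rfl hl
  | cons x t ih =>
    rcases eq_or_ne t [] with rfl | ht
    · simp
    · rw [List.sum_cons, List.map_cons, List.prod_cons]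
      have h1 : ∀ n ∈ t, 1 ≤ n := fun n hn => h n (List.mem_cons_of_mem _ hn)
      refine (hν _ _ (h x (by simp)) (sum_pos h1 ht)).trans ?_
      gcongr
      exact ih h1 ht

theorem length_le_sum {l : List ℕ} (h : ∀ n ∈ l, 1 ≤ n) : l.length ≤ l.sum := by
  induction l with
  | nil => simp
  | cons x t ih =>
    have h1 := ih fun n hn => h n (List.mem_cons_of_mem _ hn)
    have h2 := h x (by simp)
    rw [List.length_cons, List.sum_cons]
    omega

/-- finitely many pairs imply finitely many lists -/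
theorem finite_lists {ν : ℕ → ℝ≥0∞} (hν : ∀ m n, 1 ≤ m → 1 ≤ n → ν (m + n) ≤ ν m * ν n)
    (hfin : {p : ℕ × ℕ | ν ((p.1 + 1) + (p.2 + 1)) = ν (p.1 + 1) * ν (p.2 + 1)}.Finite) :
    (EqualityLists ν).Finite := by
  obtain ⟨M, hM⟩ := (hfin.image fun p => (p.1 + 1) + (p.2 + 1)).bddAbove
  have hsum : ∀ l ∈ EqualityLists ν, l.sum ≤ M := by
    rintro l ⟨hl, hpos, heq⟩
    obtain ⟨x, t, rfl⟩ : ∃ x t, l = x :: t := by
      cases l with
      | nil => simp at hl
      | cons x t => exact ⟨x, t, rfl⟩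
    have ht : t ≠ [] := by
      rintro rfl
      simp at hl
    have hx := hpos x (by simp)
    have h1 : ∀ n ∈ t, 1 ≤ n := fun n hn => hpos n (List.mem_cons_of_mem _ hn)
    have hs := sum_pos h1 ht
    obtain ⟨u, hu⟩ : ∃ u, x = u + 1 := ⟨x - 1, by omega⟩
    obtain ⟨v, hv⟩ : ∃ v, t.sum = v + 1 := ⟨t.sum - 1, by omega⟩
    rw [List.sum_cons, List.map_cons, List.prod_cons] at heq
    have h2 : ν (x + t.sum) = ν x * ν t.sum := by
      refine le_antisymm (hν _ _ hx hs) ?_
      rw [heq]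
      gcongr
      exact prod_ge hν h1 ht
    rw [List.sum_cons]
    apply hM
    refine ⟨(u, v), ?_, ?_⟩
    · change ν ((u + 1) + (v + 1)) = ν (u + 1) * ν (v + 1)
      rw [← hu, ← hv]
      exact h2
    · change (u + 1) + (v + 1) = x + t.sum
      rw [hu, hv]
  refine ((List.finite_length_le (Fin (M + 1)) M).image (List.map Fin.val)).subset ?_
  intro l hl
  have h1 := hsum l hl
  refine ⟨l.map fun x => (⟨min x M, by omega⟩ : Fin (M + 1)), ?_, ?_⟩
  · change (List.map _ l).length ≤ M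
    rw [List.length_map]
    exact (length_le_sum hl.2.1).trans h1
  · rw [List.map_map]
    conv_rhs => rw [← List.map_id l]
    apply List.map_congr_left
    intro x hx
    have h2 : x ≤ l.sum := List.le_sum_of_mem hx
    simp only [Function.comp_apply, id_eq]
    omega

theorem submul {a : ComplexMeasure ℝ} (ha : a.restrict (Ioo 0 1) = a) (m n : ℕ) (hm : 1 ≤ m)
    (hn : 1 ≤ n) : measNorm a (m + n) ≤ measNorm a m * measNorm a n := by
  have := finite_variation a
  obtain ⟨k, rfl⟩ : ∃ k, m = k + 1 := ⟨m - 1, by omega⟩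
  obtain ⟨j, rfl⟩ : ∃ j, n = j + 1 := ⟨n - 1, by omega⟩
  exact H8VT.norm_add_le ha k j

theorem meas_lists {a : ComplexMeasure ℝ} (ha : a.restrict (Ioo 0 1) = a)
    (hne : ∀ n, 1 ≤ n → measPow a n ≠ 0) : (EqualityLists (measNorm a)).Finite := by
  have := finite_variation a
  exact finite_lists (submul ha) (H8VT.finite_pairs ha hne)

theorem ofReal_list {f : ℝ → ℂ} (hf : IntegrableOn f (Ioo 0 1)) {l : List ℕ}
    (h : ∀ n ∈ l, 1 ≤ n) :
    ENNReal.ofReal (l.map (funNorm f)).prod = (l.map (measNorm (toMeas f))).prod := by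
  induction l with
  | nil => simp
  | cons x t ih =>
    rw [List.map_cons, List.map_cons, List.prod_cons, List.prod_cons,
      ENNReal.ofReal_mul (funNorm_nonneg f x), fun_norm hf (h x (by simp)),
      ih fun n hn => h n (List.mem_cons_of_mem _ hn)]

theorem toMeas_ne {f : ℝ → ℂ} (hf' : IntegrableOn f (Ioo 0 1))
    (hne : ∀ n, 1 ≤ n → funNorm f n ≠ 0) (n : ℕ) (hn : 1 ≤ n) : measPow (toMeas f) n ≠ 0 := by
  intro h0
  have h1 := fun_norm hf' hn
  rw [measNorm, h0] at h1
  simp only [VectorMeasure.variation_zero, Measure.coe_zero, Pi.zero_apply] at h1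
  have h2 : 0 < ENNReal.ofReal (funNorm f n) :=
    ENNReal.ofReal_pos.2 (lt_of_le_of_ne (funNorm_nonneg f n) (Ne.symm (hne n hn)))
  rw [← h1] at h2
  exact lt_irrefl _ h2

theorem fun_lists {f : ℝ → ℂ} (hf : IntegrableOn f (Icc 0 1))
    (hne : ∀ n, 1 ≤ n → funNorm f n ≠ 0) : (EqualityLists (funNorm f)).Finite := by
  have hf' : IntegrableOn f (Ioo 0 1) := hf.mono_set Ioo_subset_Icc_self
  refine (meas_lists (toMeas_restrict hf') (toMeas_ne hf' hne)).subset ?_
  rintro l ⟨h1, h2, h3⟩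
  refine ⟨h1, h2, ?_⟩
  have hl : l ≠ [] := by
    rintro rfl
    simp at h1
  rw [fun_norm hf' (sum_pos h2 hl), h3, ofReal_list hf' h2]

/-- infinitely many equalities exclude a sequence -/
theorem excluded {ω : ℕ → ℝ} (hpos : ∀ n, 1 ≤ n → 0 < ω n)
    (hinf : (EqualityLists ω).Infinite) : ¬ IsNormSeqMeasure ω ∧ ¬ IsNormSeqL1 ω := by
  constructor
  · rintro ⟨a, ha, hn⟩
    have hne : ∀ n, 1 ≤ n → measPow a n ≠ 0 := by
      intro n h1 h0
      have h2 := hn n h1
      rw [h0] at h2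
      simp only [VectorMeasure.variation_zero, Measure.coe_zero, Pi.zero_apply] at h2
      have := ENNReal.ofReal_pos.2 (hpos n h1)
      rw [← h2] at this
      exact lt_irrefl _ this
    apply hinf
    refine (meas_lists ha hne).subset ?_
    rintro l ⟨h1, h2, h3⟩
    refine ⟨h1, h2, ?_⟩
    have hl : l ≠ [] := by
      rintro rfl
      simp at h1
    have e1 : measNorm a l.sum = ENNReal.ofReal (ω l.sum) := hn _ (sum_pos h2 hl)
    have e2 : ∀ t : List ℕ, (∀ n ∈ t, 1 ≤ n) →
        ENNReal.ofReal (t.map ω).prod = (t.map (measNorm a)).prod := by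
      intro t ht
      induction t with
      | nil => simp
      | cons x t ih =>
        have e3 : measNorm a x = ENNReal.ofReal (ω x) := hn _ (ht x (by simp))
        rw [List.map_cons, List.map_cons, List.prod_cons, List.prod_cons,
          ENNReal.ofReal_mul (hpos x (ht x (by simp))).le, e3,
          ih fun n hn => ht n (List.mem_cons_of_mem _ hn)]
    rw [e1, h3, e2 l h2]
  · rintro ⟨f, hf, hn⟩
    have hn' : ∀ n, 1 ≤ n → funNorm f n = ω n := hn
    apply hinf
    refine (fun_lists hf fun n h1 => by rw [hn' n h1]; exact (hpos n h1).ne').subset ?_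
    rintro l ⟨h1, h2, h3⟩
    refine ⟨h1, h2, ?_⟩
    have hl : l ≠ [] := by
      rintro rfl
      simp at h1
    rw [hn' _ (sum_pos h2 hl), h3]
    congr 1
    apply List.map_congr_left
    intro n hnl
    exact (hn' n (h2 n hnl)).symm

/-! ### An explicit sequence with (i)-(iv) -/

/-- `ω_n = 2 ^ (- n ⌊log_3 n⌋)` -/
noncomputable def omegaLog (n : ℕ) : ℝ := (1 / 2) ^ (n * Nat.log 3 n)

theorem omegaLog_pos (n : ℕ) : 0 < omegaLog n := by
  unfold omegaLog
  positivity

theorem omegaLog_root {n : ℕ} (hn : 1 ≤ n) :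
    omegaLog n ^ (1 / (n : ℝ)) = (1 / 2) ^ (Nat.log 3 n) := by
  unfold omegaLog
  rw [mul_comm, pow_mul]
  exact root_pow (by positivity) hn

theorem log_tendsto : Tendsto (Nat.log 3) atTop atTop :=
  tendsto_atTop_atTop.2 fun b => ⟨3 ^ b, fun n hn => by
    have h0 : n ≠ 0 := by
      have : 0 < 3 ^ b := by positivity
      omega
    exact (Nat.le_log_iff_pow_le (by norm_num) h0).2 hn⟩

theorem omegaLog_conditions : Conditions omegaLog := by
  refine ⟨fun n _ => (omegaLog_pos n).le, ?_, ?_, ?_⟩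
  · intro m n _ _
    unfold omegaLog
    rw [← pow_add]
    apply pow_le_pow_of_le_one (by norm_num) (by norm_num)
    rw [add_mul]
    exact add_le_add (Nat.mul_le_mul_left _ (Nat.log_mono_right (by omega)))
      (Nat.mul_le_mul_left _ (Nat.log_mono_right (by omega)))
  · have h1 : Tendsto (fun k : ℕ => (1 / 2 : ℝ) ^ k) atTop (𝓝 0) :=
      tendsto_pow_atTop_nhds_zero_of_lt_one (by norm_num) (by norm_num)
    refine (h1.comp log_tendsto).congr' ?_
    filter_upwards [eventually_ge_atTop 1] with n hn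
    rw [omegaLog_root hn, Function.comp_apply]
  · intro m n hm hmn
    rw [omegaLog_root hm, omegaLog_root (hm.trans hmn)]
    exact pow_le_pow_of_le_one (by norm_num) (by norm_num) (Nat.log_mono_right hmn)

theorem omegaLog_infinite : (EqualityLists omegaLog).Infinite := by
  refine Set.infinite_of_injective_forall_mem (f := fun j : ℕ => [3 ^ j, 3 ^ j]) ?_ ?_
  · intro i j h
    have h1 : 3 ^ i = 3 ^ j := by simpa using h
    exact Nat.pow_right_injective (le_refl 2 |>.trans (by norm_num)) h1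
  · intro j
    have hp : 1 ≤ 3 ^ j := Nat.one_le_pow _ _ (by norm_num)
    refine ⟨by simp, ?_, ?_⟩
    · intro n hn
      have : n = 3 ^ j := by simpa using hn
      omega
    · have h1 : Nat.log 3 (3 ^ j) = j := Nat.log_pow (by norm_num) j
      have h2 : Nat.log 3 (3 ^ j + 3 ^ j) = j := by
        rw [Nat.log_eq_iff (Or.inr ⟨by norm_num, by omega⟩)]
        refine ⟨by omega, ?_⟩
        rw [pow_succ]
        omega
      simp only [List.sum_cons, List.sum_nil, add_zero, List.map_cons, List.map_nil,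
        List.prod_cons, List.prod_nil, mul_one]
      unfold omegaLog
      rw [h1, h2, ← pow_add, add_mul]

/-! ### A sequence with (i)-(iii) and `ω_{2n} < ω_n ^ 2` for all `n` -/

/-- `ω_n = 2 ^ (- ⌊n/2⌋ ^ 2)` -/
noncomputable def omegaSq (n : ℕ) : ℝ := (1 / 2) ^ ((n / 2) ^ 2)

theorem omegaSq_pos (n : ℕ) : 0 < omegaSq n := by
  unfold omegaSq
  positivity

theorem omegaSq_submul (m n : ℕ) : omegaSq (m + n) ≤ omegaSq m * omegaSq n := by
  unfold omegaSq
  rw [← pow_add]
  apply pow_le_pow_of_le_one (by norm_num) (by norm_num)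
  have h : m / 2 + n / 2 ≤ (m + n) / 2 := by omega
  nlinarith [Nat.zero_le (m / 2), Nat.zero_le (n / 2)]

theorem omegaSq_strict {n : ℕ} (hn : 1 ≤ n) : omegaSq (2 * n) < omegaSq n ^ 2 := by
  unfold omegaSq
  rw [← pow_mul]
  apply pow_lt_pow_right_of_lt_one₀ (by norm_num) (by norm_num)
  have h1 : 2 * n / 2 = n := by omega
  have h2 : 2 * (n / 2) ≤ n := by omega
  rw [h1]
  nlinarith [Nat.zero_le (n / 2)]

theorem omegaSq_tendsto : Tendsto (fun n : ℕ => omegaSq n ^ (1 / (n : ℝ))) atTop (𝓝 0) := by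
  have h1 : Tendsto (fun k : ℕ => (1 / 2 : ℝ) ^ k) atTop (𝓝 0) :=
    tendsto_pow_atTop_nhds_zero_of_lt_one (by norm_num) (by norm_num)
  have h2 : Tendsto (fun n : ℕ => n / 6) atTop atTop :=
    tendsto_atTop_atTop.2 fun b => ⟨6 * b, fun n hn => by omega⟩
  refine squeeze_zero' (Eventually.of_forall fun n => Real.rpow_nonneg (omegaSq_pos n).le _) ?_
    (h1.comp h2)
  filter_upwards [eventually_ge_atTop 1] with n hn
  have h3 : omegaSq n ≤ ((1 / 2 : ℝ) ^ (n / 6)) ^ n := by
    unfold omegaSq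
    rw [← pow_mul]
    apply pow_le_pow_of_le_one (by norm_num) (by norm_num)
    have h4 : 3 * (n / 6) ≤ n / 2 := by omega
    have h5 : n ≤ 2 * (n / 2) + 1 := by omega
    rcases Nat.eq_zero_or_pos (n / 6) with h6 | h6
    · rw [h6]; simp
    · nlinarith
  have h4 : ((1 / 2 : ℝ) ^ (n / 6)) = (((1 / 2 : ℝ) ^ (n / 6)) ^ n) ^ (1 / (n : ℝ)) :=
    (root_pow (by positivity) hn).symm
  rw [Function.comp_apply, h4]
  exact Real.rpow_le_rpow (omegaSq_pos n).le h3 (by positivity)

theorem omegaSq_infinite : (EqualityLists omegaSq).Infinite := by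
  refine Set.infinite_of_injective_forall_mem (f := fun k : ℕ => [1, 2 * (k + 1)]) ?_ ?_
  · intro i j h
    have h1 : 2 * (i + 1) = 2 * (j + 1) := by simpa using h
    omega
  · intro k
    refine ⟨by simp, ?_, ?_⟩
    · intro n hn
      have : n = 1 ∨ n = 2 * (k + 1) := by simpa using hn
      omega
    · simp only [List.sum_cons, List.sum_nil, add_zero, List.map_cons, List.map_nil,
        List.prod_cons, List.prod_nil, mul_one]
      unfold omegaSq
      have h1 : (1 + 2 * (k + 1)) / 2 = k + 1 := by omega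
      have h2 : 2 * (k + 1) / 2 = k + 1 := by omega
      rw [h1, h2]
      norm_num

/-- (1) If `a ∈ M(0,1)` has no power equal to zero, then
`‖a^{n_1 + ⋯ + n_k}‖ = ‖a^{n_1}‖ ⋯ ‖a^{n_k}‖` holds for finitely many lists `n_1, …, n_k` of at
least two positive integers only (in particular for finitely many pairs `(m, n)`).
(2) The same for `f ∈ L^1[0,1]`.
(3) So a sequence of positive numbers with `ω_{n_1 + ⋯ + n_k} = ω_{n_1} ⋯ ω_{n_k}` for infinitely
many such lists is not the sequence of norms of the powers of an element of `M(0,1)` or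
`L^1[0,1]`.
(4) (Q1) An explicit example with (i)-(iv) is `ω_n = 2 ^ (- n ⌊log_3 n⌋)`.
(5) The sequence `ω_n = 2 ^ (- ⌊n/2⌋ ^ 2)` satisfies (i)-(iii) and `ω_{2n} < ω_n ^ 2` for every
`n ≥ 1`, and is not of this form. -/
theorem result :
    (∀ a : ComplexMeasure ℝ, a.restrict (Ioo 0 1) = a → (∀ n, 1 ≤ n → measPow a n ≠ 0) →
      (EqualityLists (measNorm a)).Finite) ∧
    (∀ f : ℝ → ℂ, IntegrableOn f (Icc 0 1) → (∀ n, 1 ≤ n → funNorm f n ≠ 0) →
      (EqualityLists (funNorm f)).Finite) ∧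
    (∀ ω : ℕ → ℝ, (∀ n, 1 ≤ n → 0 < ω n) → (EqualityLists ω).Infinite →
      ¬ IsNormSeqMeasure ω ∧ ¬ IsNormSeqL1 ω) ∧
    (Conditions (fun n => (1 / 2) ^ (n * Nat.log 3 n)) ∧
      ¬ IsNormSeqMeasure (fun n => (1 / 2) ^ (n * Nat.log 3 n)) ∧
      ¬ IsNormSeqL1 (fun n => (1 / 2) ^ (n * Nat.log 3 n))) ∧
    (∃ ω : ℕ → ℝ, (∀ n, ω n = (1 / 2) ^ ((n / 2) ^ 2)) ∧
      (∀ m n, ω (m + n) ≤ ω m * ω n) ∧ Tendsto (fun n : ℕ => ω n ^ (1 / (n : ℝ))) atTop (𝓝 0) ∧
      (∀ n, 1 ≤ n → ω (2 * n) < ω n ^ 2) ∧ ¬ IsNormSeqMeasure ω ∧ ¬ IsNormSeqL1 ω) := by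
  refine ⟨fun a ha hne => meas_lists ha hne, fun f hf hne => fun_lists hf hne,
    fun ω h1 h2 => excluded h1 h2, ⟨omegaLog_conditions,
      excluded (fun n _ => omegaLog_pos n) omegaLog_infinite⟩,
    omegaSq, fun n => rfl, omegaSq_submul, omegaSq_tendsto, fun n hn => omegaSq_strict hn,
    excluded (fun n _ => omegaSq_pos n) omegaSq_infinite⟩

end Pool.Agent.Results.MP_81f94f_an.FinitelyManyEqualities
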